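import Pool.Agent.MP_3ad207_lc.H6.HubSpec

/-! Moving the white under a hub and the separated member across a cut. -/

set_option autoImplicit false

namespace Pool.Agent.Ehf

namespace MoveAux

variable {V : Type*} {G : SimpleGraph V} {S I A B : Set V} {D D' D₁ M : Finset V}

/-- `y` is a member or has a black member as a neighbour -/
def Near (G : SimpleGraph V) (S I : Set V) (D : Finset V) (y : V) : Prop :=
  y ∈ D ∨ ∃ c ∈ D, c ∈ I \ S ∧ G.Adj y c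

theorem Near.mono {y : V} (h : Near G S I D y) (s : D ⊆ D') : Near G S I D' y :=
  h.imp (fun a => s a) fun ⟨c, a, b⟩ => ⟨c, s a, b⟩

theorem exit_up {P : ℕ → Prop} {a b : ℕ} (hab : a ≤ b) (ha : P a) (hb : ¬P b) :
    ∃ k, a < k ∧ k ≤ b ∧ P (k - 1) ∧ ¬P k := by
  induction b, hab using Nat.le_induction with
  | base => exact (hb ha).elim
  | succ b hab ih =>
    by_cases e : P b
    · exact ⟨b + 1, by omega, le_rfl, e, hb⟩
    · obtain ⟨k, h1, h2, h3⟩ := ih e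
      exact ⟨k, h1, by omega, h3⟩

theorem exit_down {P : ℕ → Prop} {b : ℕ} (ha : ¬P 0) (hb : P b) :
    ∃ k, k < b ∧ ¬P k ∧ P (k + 1) := by
  obtain ⟨k, h1, h2, h3, h4⟩ := exit_up (P := fun k => ¬P k) (Nat.zero_le b) ha (not_not.2 hb)
  exact ⟨k - 1, by omega, h3, by rw [Nat.sub_add_cancel h1]; exact not_not.1 h4⟩

theorem mem_HC (hc : A ∪ B = HC G S I D') {b : V} (hb : b ∈ B) : b ∈ HC G S I D' :=
  hc ▸ Or.inr hb

/-- a vertex of the tree outside `B` with a neighbour in `B` -/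
theorem exit (h : Setup G S I) (hc : A ∪ B = HC G S I D') (hA : Anti G A B) {y b : V}
    (hy : y ∈ HH S I) (yB : y ∉ B) (hb : b ∈ B) (e : G.Adj y b) :
    y ∈ S \ I ∧ Near G S I D' y := by
  have h1 : y ∉ HC G S I D' := fun a => by
    rw [← hc] at a
    exact a.elim (fun a => hA.not_adj a hb e) yB
  by_cases yD : y ∈ D'
  · exact ⟨hy.resolve_left fun a => (mem_HC hc hb).2.2 y yD a e.symm, Or.inl yD⟩
  · obtain ⟨c, c1, c2, c3⟩ : ∃ c ∈ D', c ∈ I \ S ∧ G.Adj y c := by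
      by_contra a
      exact h1 ⟨hy, yD, fun c c1 c2 c3 => a ⟨c, c1, c2, c3⟩⟩
    exact ⟨h.white_of_adj_black c2 hy c3.symm, Or.inr ⟨c, c1, c2, c3⟩⟩

theorem clo_of (h : Setup G S I) {u a b : V} (hu : u ∈ S \ I) (ha : a ∈ HH S I) (hb : b ∈ HH S I)
    (aD : a ∈ D) (bD : b ∈ D) (m : u ∈ h.hseg a b) (l : h.hlen a u ≤ 3) : u ∈ clo G S I D := by
  by_cases e : a = u
  · exact ⟨hu, Or.inl (e ▸ aD)⟩
  by_cases e' : b = u
  · exact ⟨hu, Or.inl (e' ▸ bD)⟩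
  obtain ⟨h1, h2⟩ := h.hpath_hlen_of_mem ha hb m
  refine ⟨hu, Or.inr ⟨_, _, _, h.hpath_isIP ha hb, fun i hi => h.hpath_mem ha hb hi,
    (h.hpath_zero ha hb).symm ▸ aD, (h.hpath_hlen ha hb).symm ▸ bD,
    h.hlen_pos ha (white_mem_HH hu) e, h1.lt_of_ne fun c => e' ?_, l, h2⟩⟩
  rw [c, h.hpath_hlen ha hb] at h2
  exact h2

theorem ext (h : Setup G S I) {u y v : V} (hu : u ∈ S \ I) (hy : y ∈ HH S I) (hv : v ∈ HH S I)
    (m : u ∈ h.hseg y v) (ne : y ≠ u) (n : Near G S I D y) :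
    ∃ c ∈ D, c ∈ HH S I ∧ u ∈ h.hseg c v ∧ h.hlen c u ≤ h.hlen y u + 1 := by
  obtain n | ⟨c, c1, c2, c3⟩ := n
  · exact ⟨y, n, hy, m, by omega⟩
  have hc := black_mem_HH c2
  refine ⟨c, c1, hc, by_contra fun a => ?_, ?_⟩
  · have a1 := (h.mem_comp_iff hc hv).2 a
    rw [← comp_eq_of_mem (mem_comp_of_adj (mem_comp_self a1.1) c3.symm ⟨hy, ne⟩)] at a1
    exact (h.mem_comp_iff hy hv).1 a1 m
  · have := h.hlen_triangle hc hy (white_mem_HH hu)
    rw [(h.hlen_eq_one_iff hc hy).2 c3.symm] at this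
    omega

theorem clo_near (h : Setup G S I) {u y v : V} (hu : u ∈ S \ I) (hy : y ∈ HH S I)
    (hv : v ∈ HH S I) (m : u ∈ h.hseg y v) (ne : y ≠ u) (ne' : v ≠ u) (n : Near G S I D y)
    (n' : Near G S I D v) (l : h.hlen y u ≤ 2 ∨ (y ∈ D ∧ h.hlen y u ≤ 3)) : u ∈ clo G S I D := by
  obtain ⟨b, b1, b2, b3, -⟩ := ext h hu hv hy (h.hseg_symm hy hv ▸ m) ne' n'
  rw [h.hseg_symm hy b2] at b3
  obtain l | ⟨l, l'⟩ := l
  · obtain ⟨a, a1, a2, a3, a4⟩ := ext h hu hy b2 b3 ne n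
    exact clo_of h hu a2 b2 a1 b1 a3 (by omega)
  · exact clo_of h hu hy b2 l b1 b3 l'

theorem clo_path (h : Setup G S I) {g : ℕ → V} {n k j l : ℕ} (hg : IsIP G g n)
    (gH : ∀ i, i ≤ n → g i ∈ HH S I) (kj : k < j) (jl : j < l) (ln : l ≤ n) (hu : g j ∈ S \ I)
    (nk : Near G S I D (g k)) (nl : Near G S I D (g l))
    (d : (j ≤ k + 2 ∨ (g k ∈ D ∧ j ≤ k + 3)) ∨ l ≤ j + 2) : g j ∈ clo G S I D := by
  have e1 := hg.ne (i := k) (j := j) (by omega) (by omega) (by omega)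
  have e2 := hg.ne (i := l) (j := j) (by omega) (by omega) (by omega)
  have m : g j ∈ seg g k l := apply_mem_seg kj.le jl.le
  obtain d | d := d
  · refine clo_near h hu (gH k (by omega)) (gH l ln)
      ((h.hpath_of_seg hg gH (kj.trans jl).le ln).2.2 ▸ m) e1 e2 nk nl ?_
    rw [(h.hpath_of_seg hg gH kj.le (by omega)).1]
    exact d.imp (by omega) fun a => ⟨a.1, by omega⟩
  · refine clo_near h hu (gH l ln) (gH k (by omega))
      ((h.hpath_of_seg' hg gH (kj.trans jl).le ln).2.2 ▸ m) e2 e1 nl nk (Or.inl ?_)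
    rw [(h.hpath_of_seg' hg gH jl.le ln).1]
    omega

theorem white_two (h : Setup G S I) {g : ℕ → V} {n i j : ℕ} (hg : IsIP G g n)
    (gH : ∀ i, i ≤ n → g i ∈ HH S I) (hi : i ≤ n) (hj : j ≤ n) (w : g i ∈ S \ I) :
    g j ∈ S \ I ↔ Even (i + j) := by
  rw [← h.ip_colour_two hg gH hi hj, white_iff_not_black (gH j hj)]
  have := not_black_of_white w
  tauto

/-- a path that leaves `B` on both sides -/
theorem run (h : Setup G S I) (hc : A ∪ B = HC G S I D') (hA : Anti G A B) {f : ℕ → V}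
    {n i t : ℕ} (hf : IsIP G f n) (fH : ∀ k, k ≤ n → f k ∈ HH S I) (f0 : f 0 ∉ B) (fn : f n ∉ B)
    (i0 : 0 < i) (hi : i < n) (ht : t = i + 1 ∨ i = t + 1) (tB : f t ∈ B) :
    ∃ j, 0 < j ∧ j < n ∧ f j ∈ clo G S I D' := by
  obtain ⟨q, q1, q2, q3, q4⟩ := exit_up (P := fun k => f k ∈ B) (by omega : t ≤ n) tB fn
  obtain ⟨p, p1, p2, p3⟩ := exit_down (P := fun k => f k ∈ B) f0 tB
  obtain ⟨qw, qn⟩ := exit h hc hA (fH q q2) q4 q3 (hf.adj_pred (by omega) q2)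
  obtain ⟨pw, pn⟩ := exit h hc hA (fH p (by omega)) p2 p3 (hf.adj_succ (by omega))
  by_cases e : p + 2 < q
  · exact ⟨q - 2, by omega, by omega, clo_path h hf fH (by omega) (by omega) q2
      ((white_two h hf fH q2 (by omega) qw).2 ⟨q - 1, by omega⟩) pn qn (Or.inr (by omega))⟩
  refine ⟨i, i0, hi, ?_⟩
  have nB : ∀ c ∈ D', c ≠ f t := fun c a b => (mem_HC hc tB).2.1 (b ▸ a)
  obtain rfl | rfl := ht
  · obtain rfl : p = i := by omega
    obtain a | ⟨c, c1, c2, c3⟩ := id pn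
    · exact ⟨pw, Or.inl a⟩
    obtain rfl := (h.white_inside hf fH i0 hi pw (black_mem_HH c2) c3).resolve_right (nB c c1)
    exact clo_path h hf fH (by omega) (by omega) q2 pw (Or.inl c1) qn (Or.inl (Or.inl (by omega)))
  · obtain rfl : q = t + 1 := by omega
    obtain a | ⟨c, c1, c2, c3⟩ := id qn
    · exact ⟨qw, Or.inl a⟩
    obtain rfl := (h.white_inside hf fH i0 hi qw (black_mem_HH c2) c3).resolve_left (nB c c1)
    exact clo_path h hf fH (by omega) (Nat.lt_succ_self _) hi qw pn (Or.inl c1)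
      (Or.inr (by omega))

/-- a dropped end is replaced by a nearer member -/
theorem side (h : Setup G S I) (hc : A ∪ B = HC G S I D') (hA : Anti G A B)
    (hM : ∀ p ∈ M, ForSide G S I B p) (s : D' ⊆ D₁) (hD : ∀ y ∈ D, y ∉ B → y ∉ M → y ∈ D₁)
    {g : ℕ → V} {n j : ℕ} (hg : IsIP G g n) (gH : ∀ i, i ≤ n → g i ∈ HH S I) (g0 : g 0 ∈ D)
    (j0 : 0 < j) (jn : j ≤ n) (jB : g (j - 1) ∉ B) :
    ∃ k, k < j ∧ Near G S I D₁ (g k) ∧ (g k ∈ D₁ ∨ g k ∈ S \ I) := by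
  by_cases e : g 0 ∈ B
  · obtain ⟨k, k1, k2, k3, k4⟩ := exit_up (P := fun k => g k ∈ B) (Nat.zero_le _) e jB
    obtain ⟨a, b⟩ := exit h hc hA (gH k (by omega)) k4 k3 (hg.adj_pred k1 (by omega))
    exact ⟨k, by omega, b.mono s, Or.inr a⟩
  by_cases e' : g 0 ∈ M
  · obtain ⟨a, b, b1, b2⟩ := (hM _ e').resolve_left e
    exact ⟨0, j0, (exit h hc hA (gH 0 (Nat.zero_le _)) e b1 b2).2.mono s, Or.inr a⟩
  · exact ⟨0, j0, Or.inl (hD _ g0 e e'), Or.inl (hD _ g0 e e')⟩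

theorem near_kap {z u x p : V} (hD : (D' : Set V) ⊆ HH S I) (hz : z ∈ HubP G S I u x)
    (zD : ¬Sees G z (D' : Set V)) (hp : p ∈ kap G S I z x) (n : Near G S I D' p) :
    ∃ x' ∈ D', z ∈ HubP G S I u x' := by
  obtain n | ⟨c, c1, -, c3⟩ := n
  · exact ⟨p, n, HubP.move_kap hz hp⟩
  · exact ⟨c, c1, HubP.move_kap hz (mem_comp_of_adj hp c3 ⟨hD c1, fun a =>
      (mem_cN_singleton.1 a).elim (fun a => hz.1 (a ▸ hD c1)) fun a => zD ⟨c, c1, a.symm⟩⟩)⟩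

end MoveAux

open MoveAux

theorem moveUStmt : MoveUStmt := by
  intro V _ G S I h D D' D₁ M A B _ _ hc hA hM s hD z u x hu hz zB
  obtain ⟨f, n, i, hf, i0, hi, rfl⟩ := hz.2.1
  by_cases e : ∃ t, (t = i + 1 ∨ i = t + 1) ∧ f t ∈ B
  · obtain ⟨t, t1, t2⟩ := e
    obtain ⟨j, j0, jn, hj⟩ := run h hc hA hf.ip hf.mem
      (fun a => zB.not_adj rfl (Or.inl a) hf.left) (fun a => zB.not_adj rfl (Or.inl a) hf.right)
      i0 hi t1 t2
    exact ⟨f j, clo_mono s hj, HubP.move hf i0 hi j0 jn hz⟩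
  have nS : ∀ b ∈ B, ¬G.Adj (f i) b := fun b hb a =>
    (h.white_inside hf.ip hf.mem i0 hi hu.1 (mem_HC hc hb).1 a).elim
      (fun c => e ⟨i - 1, by omega, c ▸ hb⟩) fun c => e ⟨i + 1, by omega, c ▸ hb⟩
  refine ⟨f i, ?_, hz⟩
  obtain ⟨w, a | ⟨g, m, j, hg, gH, g0, gm, j0, jm, j3, gj⟩⟩ := hu
  · have nB : f i ∉ B := fun b => h.white_not_adj w (exit h hc hA (hf.mem (i + 1) hi)
      (fun c => e ⟨i + 1, by omega, c⟩) b (hf.ip.adj_succ hi).symm).1 (hf.ip.adj_succ hi)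
    exact ⟨w, Or.inl (hD _ a nB fun b => (hM _ b).elim nB fun ⟨_, c, c1, c2⟩ => nS c c1 c2)⟩
  rw [← gj] at w nS ⊢
  obtain ⟨k, k1, k2, k3⟩ := side h hc hA hM s hD hg gH g0 j0 jm.le
    fun b => nS _ b (hg.adj_pred j0 jm.le)
  obtain ⟨l, l1, l2, -⟩ := side (j := m - j) h hc hA hM s hD hg.rev (fun i _ => gH _ (by omega))
    gm (by omega) (by omega) fun b => nS _ b ((hg.adj_iff jm.le (by omega)).2 (by omega))
  refine clo_path h hg gH k1 (by omega) (Nat.sub_le m l) w k2 l2 (Or.inl ?_)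
  obtain k3 | k3 := k3
  · exact Or.inr ⟨k3, by omega⟩
  · obtain ⟨r, hr⟩ := (white_two h hg gH (by omega) jm.le k3).1 w
    exact Or.inl (by omega)

theorem moveXStmt : MoveXStmt := by
  intro V _ G S I h D' A B hD hc hA z u x hx hz zB zD
  have out : ∀ y ∈ HH S I, ¬G.Adj z y → y ∈ HH S I \ cN G {z} := fun y hy a => ⟨hy, fun b =>
    (mem_cN_singleton.1 b).elim (fun c => hz.1 (c ▸ hy)) fun c => a c.symm⟩
  by_cases xB : x ∈ B
  swap
  · obtain ⟨w, b, b1, b2⟩ := hx.resolve_left xB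
    exact near_kap hD hz zD (mem_comp_self (out x (white_mem_HH w) hz.2.2.1))
      (exit h hc hA (white_mem_HH w) xB b1 b2).2
  have zT : Anti G {z} (comp G B x) := zB.mono le_rfl (comp_subset _ _)
  have TH : comp G B x ⊆ HH S I := fun y hy => (mem_HC hc (comp_subset _ _ hy)).1
  have TK : comp G B x ⊆ kap G S I z x := (conn_comp xB).subset_comp_of_mem
    (fun y hy => out y (TH hy) (zT.not_adj rfl hy)) (mem_comp_self xB)
  have ex : ∀ p ∈ HH S I, p ∉ comp G B x → Sees G p (comp G B x) → p ∈ S \ I ∧ Near G S I D' p :=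
    fun p hp a b => b.elim fun t ht =>
      exit h hc hA hp (fun c => a (mem_comp_of_sees c b)) (comp_subset _ _ ht.1) ht.2
  by_cases e : ∃ p ∈ HH S I, p ∉ comp G B x ∧ Sees G p (comp G B x) ∧ ¬G.Adj z p
  · obtain ⟨p, p1, p2, p3, p4⟩ := e
    exact near_kap hD hz zD (mem_comp_of_sees (out p p1 p4) (p3.mono TK)) (ex p p1 p2 p3).2
  have KT : kap G S I z x ⊆ comp G B x := fun y hy =>
    hy.2.closed (p := (· ∈ comp G B x)) (mem_comp_self xB) fun a b ha ab hb => by_contra fun c =>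
      e ⟨b, hb.1, c, ⟨a, ha, ab.symm⟩, fun d => hb.2 (mem_cN_singleton.2 (Or.inr d.symm))⟩
  obtain ⟨f, n, i, hf, hi⟩ := hz.2.1
  obtain ⟨g, g1, g2, g3⟩ : ∃ p ∈ HH S I, p ∉ comp G B x ∧ Sees G p (comp G B x) := by
    by_contra c
    exact zT.not_adj rfl ((h.conn.rin (TH (mem_comp_self xB)) (hf.mem 0 (Nat.zero_le _))).closed
      (p := (· ∈ comp G B x)) (mem_comp_self xB) fun a b ha ab hb => by_contra fun d =>
        c ⟨b, hb, d, a, ha, ab.symm⟩) hf.left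
  have zg : G.Adj z g := by_contra fun a => e ⟨g, g1, g2, g3, a⟩
  obtain ⟨gw, gn⟩ := ex g g1 g2 g3
  obtain ⟨c, c1, c2, c3⟩ := gn.resolve_left fun a => zD ⟨g, a, zg⟩
  have ns : ¬Sees G g (HH S I ∩ DZ G z u) := fun a => hz.2.2.2.2 ⟨g, gw, zg, g3.mono TK,
    fun g' a1 a2 a3 => by_contra fun ne => by
      obtain ⟨m, hm⟩ := (conn_comp xB).exists_ip_sees (a3.mono KT) g3
      have o := h.ehf.odd_of_sector hm ne a2 zg zT
      have w := (ex g' a1 (fun b => zT.not_adj rfl b a2) (a3.mono KT)).1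
      rw [← (h.of_ip a1 g1 hm TH).1, ← Nat.not_even_iff_odd, h.even_hlen_iff a1 g1] at o
      exact o (iff_of_false (not_black_of_white w) (not_black_of_white gw)), a⟩
  have zc : ¬G.Adj z c := fun a => zD ⟨c, c1, a⟩
  refine ⟨c, c1, hz.1, ⟨f, n, i, hf, hi⟩, zc, fun a => ns ⟨c, ⟨hD c1, a⟩, c3⟩, ?_⟩
  rintro ⟨g', -, -, -, a, b⟩
  exact ns (a g g1 zg ⟨c, mem_comp_self (out c (hD c1) zc), c3⟩ ▸ b)

end Pool.Agent.Ehf
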