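import Pool.Agent.MP_3ad207_lc.H43.LinSpec
import Pool.Agent.MP_3ad207_lc.H24.Zone
import Pool.Agent.MP_3ad207_lc.H45.Move

/-! The lemmas TOOTH, BRANCH and ALIGN of the non-star case. -/

set_option autoImplicit false

namespace Pool.Agent.Ehf

namespace L3Aux

variable {V : Type*} {G : SimpleGraph V} {S I L R : Set V} {h : Setup G S I} {u v w x y : V}

theorem self (hu : u ∈ HH S I) (hv : v ∈ HH S I) : v ∈ h.Sub u v := ⟨hv, h.right_mem_hseg hu hv⟩

theorem top (hu : u ∈ HH S I) (a : x ∈ h.Sub u v) : v ∈ HH S I := h.hseg_subset_H hu a.1 a.2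

theorem trans (hu : u ∈ HH S I) (a : x ∈ h.Sub u y) (b : y ∈ h.Sub u v) : x ∈ h.Sub u v :=
  ⟨a.1, h.hseg_subset_hseg hu a.1 (h.left_mem_hseg hu a.1) a.2 b.2⟩

theorem antisymm (hu : u ∈ HH S I) (a : x ∈ h.Sub u y) (b : y ∈ h.Sub u x) : y = x := by
  obtain ⟨a1, a2⟩ := h.hpath_hlen_of_mem hu a.1 a.2
  rw [← a2, a1.antisymm (h.hpath_hlen_of_mem hu b.1 b.2).1, h.hpath_hlen hu a.1]

theorem transO (hu : u ∈ HH S I) (a : x ∈ h.Sub u y) (b : y ∈ h.SubO u v) : x ∈ h.SubO u v :=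
  ⟨trans hu a b.1, fun e => b.2 (antisymm hu ((e : x = v) ▸ a) b.1)⟩

theorem path_sub (hu : u ∈ HH S I) (hx : x ∈ HH S I) {i j : ℕ} (hij : i ≤ j)
    (hj : j ≤ h.hlen u x) : h.hpath u x j ∈ h.Sub u (h.hpath u x i) :=
  ⟨h.hpath_mem hu hx hj, (h.hpath_sub_left hu hx hj).2.2 ▸ apply_mem_seg (Nat.zero_le _) hij⟩

theorem cmp (hu : u ∈ HH S I) (a : x ∈ h.Sub u v) (b : x ∈ h.Sub u w) :
    v ∈ h.Sub u w ∨ w ∈ h.Sub u v := by
  obtain ⟨i, hi, rfl⟩ := h.mem_hseg.1 a.2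
  obtain ⟨j, hj, rfl⟩ := h.mem_hseg.1 b.2
  exact (le_total j i).imp (path_sub hu a.1 · hi) (path_sub hu a.1 · hj)

theorem between (hu : u ∈ HH S I) (a : y ∈ h.Sub u x) (b : v ∈ h.hseg x y) : v ∈ h.Sub u x := by
  have c : y ∈ h.Sub u v := ⟨a.1, (h.hseg_split hu a.1 a.2).2.1 ▸ Or.inr b⟩
  refine (cmp hu c a).elim id fun d => ?_
  obtain rfl : v = x := (h.hseg_inter_of_mem hu a.1 a.2).subset ⟨d.2, b⟩
  exact d

theorem child (hu : u ∈ HH S I) (a : y ∈ h.Sub u x) (ne : y ≠ x) :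
    ∃ c, G.Adj x c ∧ c ∈ h.Sub u x ∧ y ∈ h.Sub u c ∧ h.hlen u c = h.hlen u x + 1 := by
  obtain ⟨a1, a2⟩ := h.hpath_hlen_of_mem hu a.1 a.2
  have a3 : h.hlen u x < h.hlen u y := a1.lt_of_ne fun e => ne (by
    rw [← a2, e, h.hpath_hlen hu a.1])
  have a4 := (h.hpath_isIP hu a.1).adj_succ a3
  have a5 := path_sub (h := h) hu a.1 (Nat.le_succ _) a3
  rw [a2] at a4 a5
  exact ⟨_, a4, a5, ⟨a.1, h.hpath_mem_hseg a3⟩, (h.hpath_sub_left hu a.1 a3).1⟩

theorem symm (s : h.Sides u L R) : h.Sides u R L :=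
  ⟨s.white, s.cR, s.cL, s.anti.symm, (Set.union_comm _ _).trans s.cover⟩

theorem mem (s : h.Sides u L R) (a : v ∈ L) : v ∈ HH S I \ {u} := s.cover ▸ Or.inl a

theorem side (s : h.Sides u L R) (hv : v ∈ L) (a : x ∈ h.Sub u v) : x ∈ L := by
  have hu := white_mem_HH s.white
  have ne : u ≠ x := fun e => (mem s hv).2 (antisymm hu (e ▸ a)
    ⟨(mem s hv).1, h.left_mem_hseg hu (mem s hv).1⟩)
  obtain c | c := (h.conn_hseg_diff_left hu a.1 ne).subset_or s.anti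
    (s.cover ▸ Set.sdiff_subset_sdiff_left (h.hseg_subset_H hu a.1))
  · exact c ⟨h.right_mem_hseg hu a.1, ne.symm⟩
  · exact (s.anti.notMem hv (c ⟨a.2, (mem s hv).2⟩)).elim

theorem anc (s : h.Sides u L R) (hx : x ∈ L) (a : x ∈ h.Sub u v) (ne : v ≠ u) : v ∈ L :=
  (show v ∈ L ∪ R from s.cover ▸ ⟨top (white_mem_HH s.white) a, ne⟩).resolve_right fun b =>
    s.anti.notMem hx (side (symm s) b a)

theorem reroot (s : h.Sides u L R) (hv : v ∈ L) (hw : w ∈ R) (a : x ∈ h.Sub w v) :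
    x ∈ h.Sub u v := by
  have hu := white_mem_HH s.white
  have b := (mem (symm s) hw).1
  refine ⟨a.1, (h.hseg_subset_union b hu a.1 a.2).resolve_left fun c => ?_⟩
  exact s.anti.notMem (side s hv ⟨b, h.hseg_symm b hu ▸ c⟩) hw

variable {F : Ear V}

theorem nbr (s : h.Sides u L R) (e : h.IsEar F) (a : F.a ∈ L) (b : F.b ∈ R) (hv : v ∈ F.set)
    (hx : x ∈ HH S I) (c : G.Adj v x) : x ∈ h.Sub u F.a ∨ x ∈ h.Sub u F.b := by
  obtain ⟨i, -, hi, rfl⟩ := hv
  exact (e.nbr i hi x hx c).imp (fun d => reroot s a b d.2) fun d => reroot (symm s) b a d.2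

theorem out (e : h.IsEar F) (hv : v ∈ F.set) : v ∉ HH S I := by
  obtain ⟨i, -, hi, rfl⟩ := hv
  exact e.out i hi

theorem first (F : Ear V) : F.f 0 ∈ F.set := apply_mem_seg le_rfl (Nat.zero_le _)

theorem last (F : Ear V) : F.f F.n ∈ F.set := apply_mem_seg (Nat.zero_le _) le_rfl

theorem joins (s : h.Sides u L R) (e : h.IsEar F) (a : F.a ∈ L) (b : F.b ∈ R) {P Q : Set V}
    (hP : ∀ v ∈ F.set, ∀ x ∈ h.Sub u F.a, G.Adj v x → x ∈ P)
    (hQ : ∀ v ∈ F.set, ∀ x ∈ h.Sub u F.b, G.Adj v x → x ∈ Q) : h.Joins F.set P Q :=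
  ⟨e.ip.conn_seg (Nat.zero_le _) le_rfl, fun _ => out e,
    Touch.of_adj (first F) (hP _ (first F) _ (self (white_mem_HH s.white) e.aH) e.ea) e.ea,
    Touch.of_adj (last F) (hQ _ (last F) _ (self (white_mem_HH s.white) e.bH) e.eb) e.eb,
    fun v hv x hx => ⟨fun c => out e hv (c ▸ hx.1), fun c => hx.2
      ((nbr s e a b hv hx.1 c).imp (hP v hv x · c) (hQ v hv x · c))⟩⟩

theorem clean_comp {n m : ℕ} {F : ℕ → Ear V} {al be : ℕ → V} (c : h.Clean u L R n F al be)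
    {φ : ℕ → ℕ} (p : ∀ i, i < m → φ i < n) (q : ∀ i j, i < j → j < m → φ i < φ j) :
    h.Clean u L R m (fun i => F (φ i)) (fun i => al (φ i)) fun i => be (φ i) := by
  have r : ∀ i ∈ Finset.range m, φ i ∈ Finset.range n := fun i hi =>
    Finset.mem_range.2 (p i (Finset.mem_range.1 hi))
  have ne : ∀ i j, i < m → j < m → i ≠ j → φ i ≠ φ j := fun i j hi hj e =>
    (Nat.lt_or_gt_of_ne e).elim (fun a => (q i j a hj).ne) fun a => (q j i a hi).ne'
  have ne' : ∀ i ∈ Finset.range m, ∀ j ∈ Finset.range m, i ≠ j → φ i ≠ φ j := fun i hi j hj =>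
    ne i j (Finset.mem_range.1 hi) (Finset.mem_range.1 hj)
  have nd : ∀ {X : Set V} {a al : ℕ → V}, h.Nodes u X n a al →
      h.Nodes u X m (fun i => a (φ i)) fun i => al (φ i) := fun d =>
    ⟨fun i hi => d.mem _ (p i hi), fun i hi => d.top _ (p i hi),
      fun i j a b => d.desc _ _ (q i j a b) (p j b)⟩
  have st : ∀ {a al : ℕ → V}, h.Spread u n (fun i => (F i).set) al ∨ h.Star n a al →
      h.Spread u m (fun i => (F (φ i)).set) (fun i => al (φ i)) ∨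
        h.Star m (fun i => a (φ i)) fun i => al (φ i) := fun d =>
    d.imp (fun d i j a b => d _ _ (q i j a b) (p j b)) fun d i j a b =>
      (d _ _ (p i a) (p j b)).imp_right (And.imp_right fun e c => e (ne i j a b c))
  exact ⟨⟨⟨fun i hi => c.good.1.1 _ (r i hi), fun i hi j hj e =>
    c.good.1.2 _ (r i hi) _ (r j hj) (ne' i hi j hj e)⟩, fun i hi j hj e =>
      c.good.2 _ (r i hi) _ (r j hj) (ne' i hi j hj e)⟩,
    c.same.imp (fun d i hi => d _ (p i hi)) fun d i hi => d _ (p i hi), nd c.nl, nd c.nr,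
    st c.kl, st c.kr⟩

/-- a white that cuts off `x` from an incomparable vertex `y` -/
theorem off (s : h.Sides u L R) (hx : x ∈ L) (hy : y ∈ L) (a : x ∉ h.Sub u y)
    (b : y ∉ h.Sub u x) : ∃ w ∈ L, w ∈ S \ I ∧ x ∈ h.Sub u w ∧ Disjoint (h.Sub u w) (h.Sub u y) := by
  have hu := white_mem_HH s.white
  have xH := (mem s hx).1
  have yH := (mem s hy).1
  have ip := h.hpath_isIP hu xH
  obtain ⟨k, k0, kn, k1, k2⟩ := MoveAux.exit_up (P := fun i => y ∈ h.Sub u (h.hpath u x i))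
    (Nat.zero_le (h.hlen u x)) ⟨yH, by rw [h.hpath_zero hu xH]; exact h.left_mem_hseg hu yH⟩
    (by rwa [h.hpath_hlen hu xH])
  have xs : ∀ i, i ≤ h.hlen u x → x ∈ h.Sub u (h.hpath u x i) := fun i hi =>
    ⟨xH, h.hpath_mem_hseg hi⟩
  have wL : h.hpath u x k ∈ L := anc s hx (xs k kn) fun e =>
    ip.ne kn (Nat.zero_le _) k0.ne' (e.trans (h.hpath_zero hu xH).symm)
  refine ⟨_, wL, by_contra fun nw => ?_, xs k kn, Set.disjoint_left.2 fun z c d =>
    (cmp hu c d).elim (fun e => a (trans hu (xs k kn) e)) k2⟩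
  have e1 := ip.adj_pred k0 kn
  have mw := h.white_of_adj_black ((mem s wL).1.resolve_right nw) (top hu k1) e1
  obtain ⟨c, c1, c2, c3, c4⟩ := child hu k1 fun e => a (e ▸ xs _ (by omega))
  rw [(h.hpath_sub_left hu xH (by omega : k - 1 ≤ _)).1] at c4
  by_cases k3 : k - 1 = 0
  · rw [k3, h.hpath_zero hu xH] at c1 e1
    exact k2 (h.one_nbr s.cL (fun z hz => (mem s hz).1) hu (fun z => (mem s z).2 rfl)
      (anc s hy c3 c1.ne') wL c1 e1.symm ▸ c3)
  obtain rfl | rfl := h.white_inside ip (fun _ => h.hpath_mem hu xH) (by omega) (by omega) mw c2.1 c1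
  · rw [(h.hpath_sub_left hu xH (by omega : k - 1 - 1 ≤ _)).1] at c4
    omega
  · exact k2 (by rwa [Nat.sub_add_cancel k0] at c3)

end L3Aux

open L3Aux

theorem toothStmt (hX : XStmt) : ToothStmt := by
  intro V _ G S I h u w L R F al be ρ s c wL ww ha hρ ρa ρb a1 a2 hb
  have hu := white_mem_HH s.white
  have ear : ∀ i, i < 6 → h.IsEar (F i) := fun i hi => c.good.1.1 i (Finset.mem_range.2 hi)
  have aL : ∀ i, i < 6 → (F i).a ∈ L := fun i hi => side s wL (ha i hi)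
  have bR : ∀ i, i < 6 → (F i).b ∈ R := fun i hi => side (symm s) (c.nr.mem i hi) (c.nr.top i hi)
  have sp : h.Spread u 6 (fun i => (F i).set) be := c.kr.resolve_right fun st => by
    have key : ∀ i j, i < 6 → j < 6 → i ≠ j → (F j).b ∉ h.Sub u (F i).b := fun i j hi hj e d =>
      (st i j hi hj).2.1 (antisymm hu (between hu d ((st i j hi hj).2.2 e)) (c.nr.top i hi))
    exact (cmp hu (hb 0 (by omega)) (hb 1 (by omega))).elim
      (key 1 0 (by omega) (by omega) (by omega)) (key 0 1 (by omega) (by omega) (by omega))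
  obtain ⟨om, o1, o2, o3⟩ : ∃ om ∈ S \ I, om ∈ h.Sub u (be 2) ∧ be 3 ∈ h.Sub u om := by
    have d := c.nr.desc 2 3 (by omega) (by omega)
    obtain e | e := top hu d
    · obtain ⟨z, z1, z2, z3, -⟩ := child hu d (sp 2 3 (by omega) (by omega)).1
      exact ⟨z, h.white_of_adj_black e z2.1 z1, z2, z3⟩
    · exact ⟨_, e, self hu (white_mem_HH e), d⟩
  have o4 : be 4 ∈ h.SubO u om := by
    have d := c.nr.desc 3 4 (by omega) (by omega)
    exact ⟨trans hu d o3, fun e => (sp 3 4 (by omega) (by omega)).1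
      (antisymm hu ((e : be 4 = om) ▸ o3) d)⟩
  have pick : ∀ i, i + 1 < 6 → ∃ j, i ≤ j ∧ j ≤ i + 1 ∧ (F j).a ∈ h.SubO u w := fun i hi => by
    by_cases e : (F i).a = w
    · exact ⟨i + 1, by omega, le_rfl, ha _ hi, fun d => (c.good.2 i (Finset.mem_range.2 (by omega))
        (i + 1) (Finset.mem_range.2 hi) (by omega)).1 (e.trans (d : _ = w).symm)⟩
    · exact ⟨i, le_rfl, by omega, ha _ (by omega), e⟩
  obtain ⟨i, -, i1, i2⟩ := pick 0 (by omega)
  obtain ⟨j, j0, j1, j2⟩ := pick 4 (by omega)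
  have i6 : i < 6 := by omega
  have j6 : j < 6 := by omega
  have bj : (F j).b ∈ h.SubO u om := transO hu (c.nr.top j j6) (j0.eq_or_lt.elim (· ▸ o4)
    fun e => transO hu (c.nr.desc 4 j e j6) o4)
  exact hX V G S I h u w om L R _ _ _ s wL ww (side (symm s) (c.nr.mem 2 (by omega)) o2) o1
    (joins s (ear i i6) (aL i i6) (bR i i6) (fun _ _ _ hx _ => transO hu hx i2)
      fun v hv x hx e => ⟨side (symm s) (bR i i6) hx, fun d =>
        (sp i 2 (by omega) (by omega)).2.not_adj hv (trans hu d o2) e⟩)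
    (joins s hρ ρa ρb (fun v hv x hx e => ⟨side s ρa hx, fun d => a2.not_adj hv d e⟩)
      fun _ _ _ hx _ => transO hu (trans hu hx (hb j j6)) bj)
    (joins s (ear j j6) (aL j j6) (bR j j6) (fun _ _ _ hx _ => transO hu hx j2)
      fun _ _ _ hx _ => transO hu hx bj)
    (a1 i i6).symm
    (c.good.1.2 i (Finset.mem_range.2 i6) j (Finset.mem_range.2 j6) (by omega)) (a1 j j6)

theorem branchStmt (h1 : ToothStmt) (h2 : CmpStmt) : BranchStmt := by
  refine ⟨122, ?_⟩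
  intro V _ G S I h u w L R n F al be J t ρ s c wL ww hJ hE ha ap ht hρ ho
  have hu := white_mem_HH s.white
  have ear : ∀ j ∈ J, h.IsEar (F j) := fun j hj => c.good.1.1 j (Finset.mem_range.2 (hJ j hj))
  have fE : AFam G t fun k => (ρ k).set :=
    ⟨fun k hk => (ap.1 k hk).ip.conn_seg (Nat.zero_le _) le_rfl, ap.2⟩
  have fF : AFam G J fun j => (F j).set :=
    ⟨fun j hj => (ear j hj).ip.conn_seg (Nat.zero_le _) le_rfl, fun i hi j hj =>
      c.good.1.2 i (Finset.mem_range.2 (hJ i hi)) j (Finset.mem_range.2 (hJ j hj))⟩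
  obtain ⟨k, hk, J₁, s1, n1, b1⟩ := h.ehf.pick_many fE (by omega) fF
  obtain ⟨k', hk', J₂, s2, n2, b2⟩ := h.ehf.pick_many (fE.mono (Finset.erase_subset k t))
    (by rw [Finset.card_erase_of_mem hk]; omega) (fF.mono s1)
  obtain ⟨kk, hk'⟩ := Finset.mem_erase.1 hk'
  have cm : ∀ j ∈ J, ∀ l ∈ t, Anti G (F j).set (ρ l).set →
      (F j).b ∈ h.Sub u (ρ l).b ∨ (ρ l).b ∈ h.Sub u (F j).b := fun j hj l hl a =>
    (h2 V G S I h u L R _ _ s (ear j hj) (ap.1 l hl) (side s wL (ha j hj))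
      (side (symm s) (c.nr.mem j (hJ j hj)) (c.nr.top j (hJ j hj))) (hρ l hl).1 (hρ l hl).2.1
      a).resolve_left fun d => d.elim (Set.disjoint_left.1 (hρ l hl).2.2 (ha j hj)) fun d =>
        Set.disjoint_left.1 (hρ l hl).2.2 (trans hu d (ha j hj)) (self hu (ap.1 l hl).aH)
  have hb : ∀ j ∈ J₂, (ρ k).b ∈ h.Sub u (F j).b := fun j hj =>
    (cm j (s1 (s2 hj)) k hk (b1 j (s2 hj))).resolve_left fun d => ho.elim
      (fun ⟨o, _, o1, o2⟩ => o2 j (s1 (s2 hj)) (trans hu d (o1 k hk))) fun o =>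
        (cm j (s1 (s2 hj)) k' hk' (b2 j hj)).elim
          (fun e => (cmp hu d e).elim (o k hk k' hk' kk.symm) (o k' hk' k hk kk))
          fun e => o k' hk' k hk kk (trans hu e d)
  obtain ⟨φ, p, q⟩ : ∃ φ : ℕ → ℕ, (∀ i, i < 6 → φ i ∈ J₂) ∧ ∀ i j, i < j → j < 6 → φ i < φ j := by
    have c6 : 6 ≤ J₂.card := by omega
    refine ⟨fun i => if a : i < 6 then J₂.orderEmbOfCardLe c6 ⟨i, a⟩ else 0, fun i a => ?_,
      fun i j a b => ?_⟩
    · simp only [dif_pos a]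
      exact Finset.orderEmbOfCardLe_mem _ _ _
    · simp only [dif_pos b, dif_pos (a.trans b)]
      exact (J₂.orderEmbOfCardLe c6).strictMono a
  refine h1 V G S I h u w L R _ _ _ (ρ k) s (clean_comp c (fun i hi => hJ _ (s1 (s2 (p i hi)))) q)
    wL ww (fun i hi => ha _ (s1 (s2 (p i hi)))) (ap.1 k hk) (hρ k hk).1 (hρ k hk).2.1
    (fun i hi => (b1 _ (s2 (p i hi))).symm) (fun v hv x hx => ⟨fun e =>
      out (ap.1 k hk) hv (e ▸ hx.1), fun e => ?_⟩) fun i hi => hb _ (p i hi)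
  exact (nbr s (ap.1 k hk) (hρ k hk).1 (hρ k hk).2.1 hv hx.1 e).elim
    (Set.disjoint_left.1 (hρ k hk).2.2 hx) fun d =>
      s.anti.notMem (side s wL hx) (side (symm s) (hρ k hk).2.1 d)

theorem alignStmt (hB : BranchStmt) : AlignStmt := by
  obtain ⟨E, hB⟩ := hB
  refine ⟨E + 1, ?_⟩
  intro V _ G S I h u oL oR L R n F al be J t ρ s c hL hR hJ hE ha ap ht hρ
  have hu := white_mem_HH s.white
  by_contra hn
  have ne : J.Nonempty := Finset.card_pos.1 (by omega)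
  have m := J.min'_mem ne
  obtain ⟨w, w1, w2, w3, w4⟩ := off s (c.nl.mem _ (hJ _ m)) hL
    (fun a => (ha _ m).1 (trans hu (c.nl.top _ (hJ _ m)) a)) fun a => hn ⟨_, m, a⟩
  refine hB V G S I h u w L R n F al be J t ρ s c w1 w2 hJ (by omega) (fun j hj => ?_) ap ht
    (fun k hk => ⟨side s hL (hρ k hk).1, side (symm s) hR (hρ k hk).2,
      w4.mono_right fun x hx => trans hu hx (hρ k hk).1⟩)
    (Or.inl ⟨oR, (mem (symm s) hR).1, fun k hk => (hρ k hk).2, fun j hj => (ha j hj).2⟩)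
  refine trans hu (c.nl.top j (hJ j hj)) ((J.min'_le j hj).eq_or_lt.elim (· ▸ w3) fun a => ?_)
  exact trans hu (c.nl.desc _ _ a (hJ j hj)) w3

end Pool.Agent.Ehf
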